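import Pool.Agent.TwoFam.Q3
import Pool.Agent.H565.BolPairs

/-!
Two families with intersections of size two: the conjectured bound in full for `a = 4`.
-/

set_option autoImplicit false

namespace Pool.Agent.Results.MP_20855c_co.SizeFour

open Finset Pool.Agent.H565.BolPairs

/-- the pairs `(A i, B i)` form an `(a,b)`-system -/
def IsSystem (a b : ℕ) {ι β : Type} [DecidableEq β] (A B : ι → Finset β) : Prop :=
  (∀ i, (A i).card = a ∧ (B i).card = b ∧ (A i ∩ B i).card = 2) ∧
    ∀ i j k, i ≠ j → ¬ A i ∩ B j ⊆ A k ∩ B k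

/-- `S(a,b) = ∑_{i=2}^{a} 2^{i-2} (a+b-2i choose a-i)` -/
def S (a b : ℕ) : ℕ := ∑ i ∈ Finset.Icc 2 a, 2 ^ (i - 2) * (a + b - 2 * i).choose (a - i)

lemma S_four (b : ℕ) (hb : 4 ≤ b) : (b + 2) * (b + 1) = 2 * (S 4 b + 1) := by
  obtain ⟨c, rfl⟩ := Nat.exists_eq_add_of_le hb
  have hI : Finset.Icc 2 4 = ({2, 3, 4} : Finset ℕ) := by decide
  have h1 : 4 + (4 + c) - 2 * 2 = c + 4 := by omega
  have h2 : 4 + (4 + c) - 2 * 3 = c + 2 := by omega
  have h3 : 4 + (4 + c) - 2 * 4 = c := by omega
  have hc : (c + 4).choose 2 = (c + 4) * (c + 3) / 2 := by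
    rw [Nat.choose_two_right]; rfl
  have hd : 2 * ((c + 4) * (c + 3) / 2) = (c + 4) * (c + 3) := by
    have : 2 ∣ (c + 4) * (c + 3) := by
      have := Nat.even_mul_succ_self (c + 3)
      rw [Nat.even_iff] at this
      rw [Nat.dvd_iff_mod_eq_zero, Nat.mul_comm]
      exact this
    exact Nat.mul_div_cancel' this
  unfold S
  rw [hI]
  rw [Finset.sum_insert (by decide), Finset.sum_insert (by decide), Finset.sum_singleton,
    h1, h2, h3]
  simp only [Nat.choose_one_right, Nat.choose_zero_right, Nat.reduceSub, pow_zero, one_mul,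
    pow_one, mul_one]
  rw [hc]
  generalize (c + 4) * (c + 3) / 2 = q at hd ⊢
  nlinarith [hd]

/-- Every `(4,b)`-system, on any ground set, has at most `S(4,b)` pairs. -/
theorem result (b : ℕ) (hb : 4 ≤ b) {ι β : Type} [Fintype ι] [DecidableEq β]
    (A B : ι → Finset β) (h : IsSystem 4 b A B) : Fintype.card ι ≤ S 4 b := by
  classical
  by_contra hcon
  push Not at hcon
  obtain ⟨h1, h3⟩ := h
  -- the two-element sets `A i \ B i`
  have hcard : ∀ i, (A i \ B i).card = 2 := by
    intro i
    have := Finset.card_sdiff_add_card_inter (A i) (B i)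
    have h4 := (h1 i).1
    have h5 := (h1 i).2.2
    omega
  have hcross : ∀ i j, i ≠ j → ¬ Disjoint (A i \ B i) (B j) := by
    intro i j hij hd
    apply h3 i j i hij
    intro x hx
    rw [Finset.mem_inter] at hx ⊢
    refine ⟨hx.1, ?_⟩
    by_contra hxB
    exact (Finset.disjoint_left.mp hd) (Finset.mem_sdiff.mpr ⟨hx.1, hxB⟩) hx.2
  have hinj : Function.Injective (fun i => A i \ B i) := by
    intro i j hij
    by_contra hne
    have hij' : A i \ B i = A j \ B j := hij
    apply hcross i j hne
    rw [hij']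
    exact Finset.sdiff_disjoint
  set J : Finset (Finset β) := univ.image (fun i => A i \ B i) with hJ
  have hJc : J.card = Fintype.card ι := by
    rw [hJ, Finset.card_image_of_injective _ hinj, Finset.card_univ]
  set B' : Finset β → Finset β := fun T => if hT : ∃ i, A i \ B i = T then B hT.choose else ∅
    with hB'
  have hB'i : ∀ i, B' (A i \ B i) = B i := by
    intro i
    have hT : ∃ j, A j \ B j = A i \ B i := ⟨i, rfl⟩
    have : B' (A i \ B i) = B hT.choose := by rw [hB']; exact dif_pos hT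
    rw [this, hinj hT.choose_spec]
  set N : Finset β := univ.biUnion (fun i => A i ∪ B i) with hN
  have hsub : ∀ i, A i ∪ B i ⊆ N := by
    intro i
    exact Finset.subset_biUnion_of_mem (fun i => A i ∪ B i) (Finset.mem_univ i)
  have hPS : PairSystem N J B' := by
    refine ⟨?_, ?_⟩
    · intro T hT
      rw [hJ, Finset.mem_image] at hT
      obtain ⟨i, _, rfl⟩ := hT
      refine ⟨?_, hcard i, ?_, ?_⟩
      · exact (Finset.sdiff_subset.trans Finset.subset_union_left).trans (hsub i)
      · rw [hB'i]; exact Finset.subset_union_right.trans (hsub i)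
      · rw [hB'i]; exact Finset.sdiff_disjoint
    · intro T hT T' hT' hne
      rw [hJ, Finset.mem_image] at hT hT'
      obtain ⟨i, _, rfl⟩ := hT
      obtain ⟨j, _, rfl⟩ := hT'
      rw [hB'i]
      exact hcross i j (fun hij => hne (by rw [hij]))
  have hwt : ∑ T ∈ J, wt (B' T).card = (Fintype.card ι : ℚ) * wt b := by
    have : ∀ T ∈ J, wt (B' T).card = wt b := by
      intro T hT
      rw [hJ, Finset.mem_image] at hT
      obtain ⟨i, _, rfl⟩ := hT
      rw [hB'i, (h1 i).2.1]
    rw [Finset.sum_congr rfl this, Finset.sum_const, nsmul_eq_mul, hJc]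
  have hle := bollobas _ N J B' rfl hPS
  rw [hwt] at hle
  have hS := S_four b hb
  have hS' : ((b : ℚ) + 2) * ((b : ℚ) + 1) = 2 * ((S 4 b : ℚ) + 1) := by exact_mod_cast hS
  have hge : (S 4 b : ℚ) + 1 ≤ (Fintype.card ι : ℚ) := by exact_mod_cast hcon
  have hwb : ((S 4 b : ℚ) + 1) * wt b = 1 := by
    unfold wt
    have e1 : ((b : ℚ) + 1) ≠ 0 := by positivity
    have e2 : ((b : ℚ) + 2) ≠ 0 := by positivity
    field_simp
    linarith
  have heq : ∑ T ∈ J, wt (B' T).card = 1 := by
    rw [hwt]
    apply le_antisymm hle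
    rw [← hwb]
    exact mul_le_mul_of_nonneg_right hge (wt_pos b).le
  have hcount : Fintype.card ι = S 4 b + 1 := by
    have hp := wt_pos b
    have : (Fintype.card ι : ℚ) * wt b = ((S 4 b : ℚ) + 1) * wt b := by
      rw [hwb, ← hwt, heq]
    have := mul_right_cancel₀ hp.ne' this
    exact_mod_cast this
  -- pick a member
  have hne : Nonempty ι := by
    rw [← Fintype.card_pos_iff]; omega
  obtain ⟨i0⟩ := hne
  have hmem : ∀ i, A i \ B i ∈ J := fun i => by
    rw [hJ]; exact Finset.mem_image_of_mem _ (Finset.mem_univ i)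
  set Y : Finset β := (A i0 \ B i0) ∪ B i0 with hY
  have hYc : Y.card = b + 2 := by
    rw [hY, Finset.card_union_of_disjoint Finset.sdiff_disjoint, hcard, (h1 i0).2.1]
    omega
  have hpairs : Y.powersetCard 2 ⊆ J := by
    intro T hT
    rw [Finset.mem_powersetCard] at hT
    obtain ⟨x, y, hxy, rfl⟩ := Finset.card_eq_two.mp hT.2
    refine eq_all_pairs hPS heq (hmem i0) hxy ?_ ?_
    · rw [hB'i]; exact hT.1 (by simp)
    · rw [hB'i]; exact hT.1 (by simp)
  have hpc : (Y.powersetCard 2).card = S 4 b + 1 := by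
    rw [Finset.card_powersetCard, hYc, Nat.choose_two_right]
    have : b + 2 - 1 = b + 1 := by omega
    rw [this, hS]
    omega
  have hJeq : Y.powersetCard 2 = J :=
    Finset.eq_of_subset_of_card_le hpairs (by rw [hpc, hJc, hcount])
  have hall : ∀ i, A i ∪ B i ⊆ Y := by
    intro i
    have hd : A i \ B i ⊆ Y := by
      have := hmem i
      rw [← hJeq, Finset.mem_powersetCard] at this
      exact this.1
    have hBY : B i ⊆ Y := by
      intro x hx
      obtain ⟨y, hy⟩ : (A i \ B i).Nonempty := by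
        rw [← Finset.card_pos, hcard]; norm_num
      have hxy : x ≠ y := by
        rintro rfl
        exact (Finset.mem_sdiff.mp hy).2 hx
      have hp : ({x, y} : Finset β) ∈ J := by
        refine eq_all_pairs hPS heq (hmem i) hxy ?_ ?_
        · rw [hB'i]; exact Finset.mem_union_right _ hx
        · exact Finset.mem_union_left _ hy
      rw [← hJeq, Finset.mem_powersetCard] at hp
      exact hp.1 (by simp)
    intro x hx
    by_cases hxB : x ∈ B i
    · exact hBY hxB
    · rcases Finset.mem_union.mp hx with hxA | hxB'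
      · exact hd (Finset.mem_sdiff.mpr ⟨hxA, hxB⟩)
      · exact absurd hxB' hxB
  have hfin := Pool.Agent.TwoFam.final 4 b (by norm_num) hb A B (fun i => (h1 i).1)
    (fun i => (h1 i).2.1) (fun i => (h1 i).2.2) h3 Y hall (by rw [hYc]; omega)
    (Or.inr (Or.inl (by rw [hYc]; omega)))
  have : Fintype.card ι ≤ S 4 b := hfin
  omega

end Pool.Agent.Results.MP_20855c_co.SizeFour
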